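import Pool.Agent.H144Z.XY.Tower

set_option autoImplicit false

namespace Pool.Agent.Results.MP_134aa9_al.AStarNotSharp

/-- There are a word `w` in `n ≥ 1` variables and an infinite group `G` such that any infinite
subsets `S i` contain elements `s i` with `w(s) = 1`, while it is not true that any infinite
subsets `S i` contain elements `s i` generating a subgroup in which `w = 1` is a law. -/
theorem result :
    ∃ (n : ℕ) (w : FreeGroup (Fin n)) (G : Type) (_ : Group G), 1 ≤ n ∧ Infinite G ∧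
      (∀ S : Fin n → Set G, (∀ i, (S i).Infinite) →
        ∃ s : Fin n → G, (∀ i, s i ∈ S i) ∧ FreeGroup.lift s w = 1) ∧
      ¬ (∀ S : Fin n → Set G, (∀ i, (S i).Infinite) →
        ∃ s : Fin n → G, (∀ i, s i ∈ S i) ∧
          ∀ g : Fin n → ↥(Subgroup.closure (Set.range s)), FreeGroup.lift g w = 1) := by
  obtain ⟨N, hN1, hN2, hN3⟩ : ∃ N : ℕ, Odd N ∧ 10 ^ 32 ≤ N ∧ 3 ∣ N :=
    ⟨3 ^ 70, Odd.pow (by decide), by norm_num, by norm_num⟩
  obtain ⟨G, iG, a, ha, hinf, hfin⟩ := Pool.Agent.H144Z.XY.exists_group N hN1 hN2 hN3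
  refine ⟨2, (FreeGroup.of 0 * FreeGroup.of 1) ^ N, G, iG, by norm_num,
    Set.infinite_univ_iff.1 (hinf.mono (Set.subset_univ _)), fun S hS => ?_, fun h => ?_⟩
  · obtain ⟨s, hs, t, ht, e⟩ := Pool.Agent.H144Z.XY.star_of hfin (S 0) (S 1) (hS 0) (hS 1)
    refine ⟨![s, t], fun i => ?_, by simpa using e⟩
    fin_cases i
    · exact hs
    · exact ht
  · obtain ⟨s, hs, hw⟩ := h (fun _ => Set.range fun g : G => g * a * g⁻¹) fun _ => hinf
    obtain ⟨g, hg⟩ := hs 0
    have h1 := hw ![⟨s 0, Subgroup.subset_closure ⟨0, rfl⟩⟩, 1]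
    simp only [map_pow, map_mul, FreeGroup.lift_apply_of, Matrix.cons_val_zero,
      Matrix.cons_val_one, mul_one] at h1
    have h2 : s 0 ^ N = 1 := congrArg Subtype.val h1
    rw [← hg, conj_pow, mul_inv_eq_one, mul_eq_left] at h2
    exact ha h2

end Pool.Agent.Results.MP_134aa9_al.AStarNotSharp
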